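import Mathlib

set_option autoImplicit false

namespace Pool.Agent.H.MP_175962_nt

open Finset

theorem roots_dvd (S : Finset ℕ) (t : ℕ) (ht : S.card = t + 2) (D : ℕ) : D ≠ 0 →
    (∀ n ∈ S, D ∣ n * (n + 1)) →
    D ^ ((t + 2) * t) ∣ (∏ z ∈ S.offDiag, Nat.dist z.1 z.2) ^ 2 := by
  induction D using Nat.recOnPosPrimePosCoprime with
  | zero => simp
  | one => simp
  | coprime a b ha hb hab iha ihb =>
    intro _ h
    rw [mul_pow]
    exact (Nat.Coprime.pow _ _ hab).mul_dvd_of_dvd_of_dvd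
      (iha (by omega) fun n hn => (dvd_mul_right _ _).trans (h n hn))
      (ihb (by omega) fun n hn => (dvd_mul_left _ _).trans (h n hn))
  | prime_pow p v hp hv =>
    intro _ h
    generalize hq : p ^ v = q at *
    have k : ∀ T : Finset ℕ, (∀ a ∈ T, ∀ b ∈ T, q ∣ Nat.dist a b) →
        q ^ (T.card * T.card - T.card) ∣ ∏ z ∈ T.offDiag, Nat.dist z.1 z.2 := fun T hT => by
      rw [← offDiag_card, ← prod_const]
      exact prod_dvd_prod_of_dvd _ _ fun z hz =>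
        hT _ (mem_offDiag.1 hz).1 _ (mem_offDiag.1 hz).2.1
    have d : ∀ a b : ℕ, q ∣ a → q ∣ b → q ∣ Nat.dist a b := fun a b ha hb =>
      dvd_add (Nat.dvd_sub ha hb) (Nat.dvd_sub hb ha)
    have k0 := k (S.filter (q ∣ ·)) fun a ha b hb => d _ _ (mem_filter.1 ha).2 (mem_filter.1 hb).2
    have o : ∀ a ∈ S.filter fun n => ¬ q ∣ n, q ∣ a + 1 := fun a ha => by
      obtain ⟨h1, h2⟩ := mem_filter.1 ha
      subst hq
      by_cases h3 : p ∣ a
      · refine absurd (Nat.Coprime.dvd_of_dvd_mul_right (Nat.Coprime.pow_left _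
          ((Nat.Prime.coprime_iff_not_dvd hp).2 fun h4 => ?_)) (h a h1)) h2
        exact hp.one_lt.ne' (Nat.dvd_one.1 ((Nat.dvd_add_right h3).1 h4))
      · exact Nat.Coprime.dvd_of_dvd_mul_left (Nat.Coprime.pow_left _
          ((Nat.Prime.coprime_iff_not_dvd hp).2 h3)) (h a h1)
    have k1 := k _ fun a ha b hb => by
      rw [← Nat.dist_add_add_right a 1 b]; exact d _ _ (o a ha) (o b hb)
    have c := card_filter_add_card_filter_not (s := S) (q ∣ ·)
    have u := (mul_dvd_mul k0 k1).trans (show _ ∣ ∏ z ∈ S.offDiag, Nat.dist z.1 z.2 by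
      rw [← prod_union]
      · exact prod_dvd_prod_of_subset _ _ _ (union_subset (offDiag_mono (filter_subset _ _))
          (offDiag_mono (filter_subset _ _)))
      · exact disjoint_left.2 fun z h1 h2 =>
          (mem_filter.1 (mem_offDiag.1 h2).1).2 (mem_filter.1 (mem_offDiag.1 h1).1).2)
    refine (pow_dvd_pow q ?_).trans (by rw [← pow_add] at u; rw [pow_mul]; exact pow_dvd_pow_of_dvd u 2)
    generalize (S.filter (q ∣ ·)).card = a at *
    generalize (S.filter fun n => ¬ q ∣ n).card = b at *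
    have h1 := Nat.le_mul_self a
    have h2 := Nat.le_mul_self b
    zify [h1, h2] at *
    have : (t : ℤ) = a + b - 2 := by linarith
    rw [this]
    nlinarith [sq_nonneg ((a : ℤ) - b)]

theorem roots_card {S : Finset ℕ} {D l k : ℕ} (hD : D ≠ 0) (h : ∀ n ∈ S, D ∣ n * (n + 1))
    (h1 : ∀ a ∈ S, ∀ b ∈ S, Nat.dist a b ≤ l) (h2 : 2 * l ^ 2 ≤ D) (h3 : D ≤ 2 ^ k) :
    S.card ≤ k + 1 := by
  rcases le_or_gt S.card 1 with h0 | h0
  · omega
  obtain ⟨t, ht⟩ : ∃ t, S.card = t + 2 := ⟨S.card - 2, by omega⟩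
  have a := Nat.le_of_dvd (pow_pos (prod_pos fun z hz => Nat.dist_pos_of_ne (mem_offDiag.1 hz).2.2) 2)
    (roots_dvd S t ht D hD h)
  have b := prod_le_pow_card S.offDiag (fun z => Nat.dist z.1 z.2) l fun z hz =>
    h1 _ (mem_offDiag.1 hz).1 _ (mem_offDiag.1 hz).2.1
  rw [offDiag_card, ht, show (t + 2) * (t + 2) - (t + 2) = (t + 2) * (t + 1) from
    Nat.sub_eq_of_eq_add (by ring)] at b
  have c : (2 ^ (t + 1)) ^ (t + 2) * D ^ ((t + 2) * t) ≤ D ^ (t + 2) * D ^ ((t + 2) * t) :=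
    calc _ ≤ (2 ^ (t + 1)) ^ (t + 2) * (l ^ ((t + 2) * (t + 1))) ^ 2 :=
          Nat.mul_le_mul_left _ (a.trans (Nat.pow_le_pow_left b 2))
      _ = (2 * l ^ 2) ^ ((t + 2) * (t + 1)) := by ring
      _ ≤ D ^ ((t + 2) * (t + 1)) := Nat.pow_le_pow_left h2 _
      _ = _ := by ring
  have d := (Nat.pow_le_pow_iff_left (by omega)).1 (Nat.le_of_mul_le_mul_right c (by positivity))
  have := (Nat.pow_le_pow_iff_right one_lt_two).1 (d.trans h3)
  omega

/-- gap principle for two simultaneous Pell-type equations -/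
theorem gap {m m' y y' x x' z z' L : ℤ} (h2 : 2 ≤ m) (hm : m < m') (hL : m' ≤ L) (hy : 3 ≤ y)
    (hy' : y < y') (px : 0 < x) (px' : 0 < x') (pz : 0 < z) (pz' : 0 < z')
    (ex : x ^ 2 = m * (y ^ 2 - 1) + 1) (ex' : x' ^ 2 = m * (y' ^ 2 - 1) + 1)
    (ez : z ^ 2 = m' * (y ^ 2 - 1) + 1) (ez' : z' ^ 2 = m' * (y' ^ 2 - 1) + 1) :
    y ^ 4 ≤ 14 * L ^ 5 * y' ^ 2 := by
  obtain ⟨d, hd⟩ : ∃ d, d = m' - m := ⟨_, rfl⟩
  have pd : 0 < d := by omega
  have py : 0 < y := by omega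
  have py' : 0 < y' := by omega
  have pm : 0 < m := by omega
  have pm' : 0 < m' := by omega
  have y2 : 9 ≤ y ^ 2 := by nlinarith
  have y3 : y ^ 2 < y' ^ 2 := by nlinarith
  have e1 : m' * x ^ 2 = m * z ^ 2 + d := by rw [ex, ez, hd]; ring
  have e2 : m' * x' ^ 2 = m * z' ^ 2 + d := by rw [ex', ez', hd]; ring
  obtain ⟨F, hF⟩ : ∃ F, F = m' * x * x' - m * z * z' := ⟨_, rfl⟩
  have e3 : F * (m' * x * x' + m * z * z') = d * (m * z ^ 2 + m * z' ^ 2 + d) := by
    rw [hF]; linear_combination (m' * x' ^ 2) * e1 + (m * z ^ 2 + d) * e2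
  have pF : 0 < F := (pos_iff_pos_of_mul_pos (by rw [e3]; positivity)).2
    (show 0 < m' * x * x' + m * z * z' by positivity)
  have b1 : m' * y * y' ≤ 2 * (z * z') := by
    refine (pow_le_pow_iff_left₀ (by positivity) (by positivity) two_ne_zero).1 ?_
    have a1 : m' * y ^ 2 ≤ 2 * z ^ 2 := by nlinarith
    have a2 : m' * y' ^ 2 ≤ 2 * z' ^ 2 := by nlinarith
    calc _ = m' * y ^ 2 * (m' * y' ^ 2) := by ring
      _ ≤ 2 * z ^ 2 * (2 * z' ^ 2) := mul_le_mul a1 a2 (by positivity) (by positivity)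
      _ = _ := by ring
  have b2 : F * y ≤ 6 * d * y' := by
    have a1 : z ^ 2 ≤ m' * y' ^ 2 := by nlinarith
    have a2 : z' ^ 2 ≤ m' * y' ^ 2 := by nlinarith
    have a3 : d ≤ m * (m' * y' ^ 2) := by nlinarith [mul_pos pm' (by omega : 0 < y' ^ 2 - 1)]
    have a4 : m * z ^ 2 + m * z' ^ 2 + d ≤ 3 * (m * (m' * y' ^ 2)) := by nlinarith
    refine le_of_mul_le_mul_right ?_ (show 0 < m * m' * y' by positivity)
    calc F * y * (m * m' * y') = F * m * (m' * y * y') := by ring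
      _ ≤ F * m * (2 * (z * z')) := by gcongr
      _ ≤ 2 * (F * (m' * x * x' + m * z * z')) := by
          nlinarith [show 0 < F * (m' * x * x') by positivity]
      _ ≤ 2 * (d * (3 * (m * (m' * y' ^ 2)))) := by rw [e3]; gcongr
      _ = _ := by ring
  obtain ⟨s, hs⟩ : ∃ s, s = x * y' + x' * y := ⟨_, rfl⟩
  obtain ⟨s', hs'⟩ : ∃ s, s = z * y' + z' * y := ⟨_, rfl⟩
  obtain ⟨E, hE⟩ : ∃ E, E = m' * s ^ 2 - m * s' ^ 2 := ⟨_, rfl⟩
  have e4 : E = d * y' ^ 2 + d * y ^ 2 + 2 * y' * (F * y) := by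
    rw [hE, hs, hs', hF]; linear_combination y' ^ 2 * e1 + y ^ 2 * e2
  have pE : 0 < E := by rw [e4]; positivity
  have b3 : E ≤ 14 * L * y' ^ 2 := by
    have : 2 * y' * (F * y) ≤ 2 * y' * (6 * d * y') := by gcongr
    have : d * y ^ 2 ≤ d * y' ^ 2 := by gcongr
    have : d * y' ^ 2 ≤ L * y' ^ 2 := by gcongr; omega
    nlinarith
  obtain ⟨w, hw⟩ : ∃ w, w = (m - 1) * (m' - 1) * (y' ^ 2 - y ^ 2) := ⟨_, rfl⟩
  have pw : 0 < w := by rw [hw]; exact mul_pos (mul_pos (by omega) (by omega)) (by omega)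
  have e5 : (x * y' - x' * y) * (m' - 1) * s = -w := by
    rw [hs, hw]; linear_combination (m' - 1) * y' ^ 2 * ex - (m' - 1) * y ^ 2 * ex'
  have e6 : (z * y' - z' * y) * (m - 1) * s' = -w := by
    rw [hs', hw]; linear_combination (m - 1) * y' ^ 2 * ez - (m - 1) * y ^ 2 * ez'
  generalize (x * y' - x' * y) * (m' - 1) = u at e5
  generalize (z * y' - z' * y) * (m - 1) = u' at e6
  have e7 : (m' * u' ^ 2 - m * u ^ 2) * (s * s') ^ 2 = w ^ 2 * E := by
    rw [hE]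
    linear_combination m' * s ^ 2 * (u' * s' - w) * e6 - m * s' ^ 2 * (u * s - w) * e5
  have b4 : y * y' ≤ s := by
    have : y ≤ x := (pow_le_pow_iff_left₀ (by positivity) (by positivity) two_ne_zero).1 (by nlinarith)
    nlinarith [mul_pos px' py]
  have b5 : y * y' ≤ s' := by
    have : y ≤ z := (pow_le_pow_iff_left₀ (by positivity) (by positivity) two_ne_zero).1 (by nlinarith)
    nlinarith [mul_pos pz' py]
  have ps : 0 < s := (mul_pos py py').trans_le b4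
  have ps' : 0 < s' := (mul_pos py py').trans_le b5
  have b6 : 1 ≤ m' * u' ^ 2 - m * u ^ 2 :=
    (pos_iff_pos_of_mul_pos (by rw [e7]; positivity)).2 (show 0 < (s * s') ^ 2 by positivity)
  have b7 : w ≤ L * L * y' ^ 2 := by
    rw [hw]
    exact mul_le_mul (mul_le_mul (by omega) (by omega) (by omega) (by omega)) (by omega) (by omega)
      (mul_self_nonneg _)
  refine le_of_mul_le_mul_right ?_ (show 0 < y' ^ 4 by positivity)
  calc y ^ 4 * y' ^ 4 = 1 * (y * y' * (y * y')) ^ 2 := by ring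
    _ ≤ (m' * u' ^ 2 - m * u ^ 2) * (s * s') ^ 2 := by gcongr
    _ ≤ (L * L * y' ^ 2) ^ 2 * (14 * L * y' ^ 2) := by rw [e7]; gcongr
    _ = _ := by ring

end Pool.Agent.H.MP_175962_nt
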