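import Pool.Agent.H.MP_175962_nt.A

set_option autoImplicit false

namespace Pool.Agent.H.MP_175962_nt

open Finset Real

def P (n : ℕ) : ℕ := n * (n + 1)

def k (e : ℕ) : ℕ := Nat.log 2 e + 1

noncomputable def a (m : ℕ) : ℝ := (m : ℝ) ^ (-(15 / 16) : ℝ)

open Classical in
noncomputable def M (e : ℕ) : Finset ℕ := (Icc 2 (k e ^ 4)).filter fun m => ∃ n, P n = m * P e

noncomputable def Z : ℝ := ∑' n : ℕ, (n : ℝ) ^ (-(33 / 32) : ℝ)

def up (e N : ℕ) : Finset ℕ := (Ioc e N).filter fun n => P e ∣ P n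

theorem mem_M {e m : ℕ} : m ∈ M e ↔ (2 ≤ m ∧ m ≤ k e ^ 4) ∧ ∃ n, P n = m * P e := by
  simp [M]

theorem mem_up {e N n : ℕ} : n ∈ up e N ↔ (e < n ∧ n ≤ N) ∧ P e ∣ P n := by
  simp [up]

theorem le_Z (s : Finset ℕ) : ∑ j ∈ s, (j : ℝ) ^ (-(33 / 32) : ℝ) ≤ Z :=
  (summable_nat_rpow.2 (by norm_num)).sum_le_tsum s fun _ _ => by positivity

theorem Z_nonneg : 0 ≤ Z := by simpa using le_Z ∅

theorem a_nonneg (m : ℕ) : 0 ≤ a m := by unfold a; positivity

theorem P_mono : StrictMono P := fun a b h => by unfold P; nlinarith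

theorem lt_k (e : ℕ) : e < 2 ^ k e := Nat.lt_pow_succ_log_self one_lt_two e

theorem k_mono {e f : ℕ} (h : e ≤ f) : k e ≤ k f := Nat.succ_le_succ (Nat.log_mono_right h)

theorem up_le {e : ℕ} (he : 1 ≤ e) (N : ℕ) : ∑ n ∈ up e N, a (P n / P e) ≤
    ∑ m ∈ M e, a m + 27 * Z * (k e : ℝ) ^ (-(1 / 2) : ℝ) := by
  obtain ⟨h, hh⟩ : ∃ h, h = (e + 1) / 2 := ⟨_, rfl⟩
  have h0 : 0 < h := by omega
  have pe : 0 < P e := by unfold P; positivity
  have pk : 0 < k e := Nat.succ_pos _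
  have pk' : (1 : ℝ) ≤ k e := by exact_mod_cast pk
  have hm : ∀ n ∈ up e N, e < n ∧ P n = P n / P e * P e := fun n hn =>
    ⟨(mem_Ioc.1 (mem_filter.1 hn).1).1, (Nat.div_mul_cancel (mem_filter.1 hn).2).symm⟩
  rw [← sum_filter_add_sum_filter_not _ fun n => n / h < k e ^ 2]
  refine add_le_add ?_ ?_
  · rw [← sum_image (g := fun n => P n / P e) fun x hx y hy e => P_mono.injective (by
      rw [(hm x (mem_filter.1 hx).1).2, (hm y (mem_filter.1 hy).1).2]; exact congrArg (· * _) e)]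
    refine sum_le_sum_of_subset_of_nonneg (fun m h1 => ?_) fun _ _ _ => a_nonneg _
    obtain ⟨n, hn, rfl⟩ := mem_image.1 h1
    obtain ⟨h2, h3⟩ := mem_filter.1 hn
    obtain ⟨h4, h5⟩ := hm n h2
    generalize P n / P e = m at *
    refine mem_M.2 ⟨⟨?_, ?_⟩, n, h5⟩
    · have := P_mono h4
      exact lt_of_mul_lt_mul_right (a := P e) (by omega) (Nat.zero_le _)
    · have h6 : n + 1 ≤ k e ^ 2 * e := ((Nat.div_lt_iff_lt_mul h0).1 h3).trans_le
        (Nat.mul_le_mul_left _ (by omega))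
      refine Nat.le_of_mul_le_mul_right (h5 ▸ ?_) pe
      calc P n ≤ k e ^ 2 * e * (k e ^ 2 * (e + 1)) :=
            Nat.mul_le_mul (by omega) (h6.trans (Nat.mul_le_mul_left _ (by omega)))
        _ = _ := by unfold P; ring
  · rw [← sum_fiberwise_of_maps_to (t := range (N + 1)) (g := (· / h)) fun n hn => mem_range.2
      (Nat.lt_succ_of_le ((Nat.div_le_self _ _).trans
        (mem_up.1 (mem_filter.1 hn).1).1.2))]
    have e1 : 27 * (k e : ℝ) ^ (-(1 / 2) : ℝ) = 3 * k e * (9 * (k e : ℝ) ^ (-(3 / 2) : ℝ)) := by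
      rw [show (-(1 / 2) : ℝ) = 1 + -(3 / 2) by norm_num, rpow_add (by positivity), rpow_one]; ring
    rw [mul_right_comm]
    refine le_trans (sum_le_sum fun j _ => ?_) ((mul_sum _ _ _).ge.trans
      (mul_le_mul_of_nonneg_left (le_Z (range (N + 1))) (by positivity)))
    rw [e1, mul_assoc]
    refine (sum_le_card_nsmul _ _ (9 * (k e : ℝ) ^ (-(3 / 2) : ℝ) * (j : ℝ) ^ (-(33 / 32) : ℝ))
      fun n hn => ?_).trans ?_
    · obtain ⟨h1, rfl⟩ := mem_filter.1 hn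
      obtain ⟨h2, h3⟩ := mem_filter.1 h1
      obtain ⟨-, h5⟩ := hm n h2
      have h6 := Nat.div_mul_le_self n h
      generalize P n / P e = m at *
      generalize n / h = j at *
      have h7 : j ^ 2 ≤ 9 * m := by
        refine Nat.le_of_mul_le_mul_right ?_ pe
        calc j ^ 2 * P e ≤ j ^ 2 * (3 * h * (3 * h)) :=
              Nat.mul_le_mul_left _ (Nat.mul_le_mul (by omega) (by omega))
          _ = 9 * (j * h * (j * h)) := by ring
          _ ≤ 9 * P n := Nat.mul_le_mul_left _ (Nat.mul_le_mul h6 (by omega))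
          _ = _ := by rw [h5]; ring
      have h8 : (k e : ℝ) ^ 2 ≤ j := by exact_mod_cast not_lt.1 h3
      have h9 : (1 : ℝ) ≤ j := le_trans (by nlinarith) h8
      have b1 : a m ≤ ((j : ℝ) ^ 2 / 9) ^ (-(15 / 16) : ℝ) :=
        rpow_le_rpow_of_nonpos (by positivity)
          (by rw [div_le_iff₀' (by norm_num)]; exact_mod_cast h7) (by norm_num)
      have b2 : ((9 : ℝ) ^ (-(15 / 16) : ℝ))⁻¹ ≤ 9 := by
        rw [rpow_neg (by norm_num), inv_inv]
        exact rpow_le_self_of_one_le (by norm_num) (by norm_num)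
      have b3 : ((j : ℝ) ^ 2) ^ (-(15 / 16) : ℝ) ≤
          (k e : ℝ) ^ (-(3 / 2) : ℝ) * (j : ℝ) ^ (-(33 / 32) : ℝ) :=
        calc _ = (j : ℝ) ^ (-(27 / 32) : ℝ) * (j : ℝ) ^ (-(33 / 32) : ℝ) := by
              rw [← rpow_natCast, ← rpow_mul (by positivity), ← rpow_add (by positivity)]; norm_num
          _ ≤ ((k e : ℝ) ^ 2) ^ (-(3 / 4) : ℝ) * (j : ℝ) ^ (-(33 / 32) : ℝ) :=
              mul_le_mul_of_nonneg_right ((rpow_le_rpow_of_exponent_le h9 (by norm_num)).trans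
                (rpow_le_rpow_of_nonpos (by positivity) h8 (by norm_num))) (by positivity)
          _ = _ := by rw [← rpow_natCast, ← rpow_mul (by positivity)]; norm_num
      rw [div_rpow (by positivity) (by norm_num), div_eq_inv_mul] at b1
      rw [mul_assoc]
      exact b1.trans (mul_le_mul b2 b3 (by positivity) (by norm_num))
    · rw [nsmul_eq_mul]
      refine mul_le_mul_of_nonneg_right ?_ (by positivity)
      have := lt_k e
      exact_mod_cast (roots_card (l := h - 1) (k := 2 * k e) pe.ne'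
        (fun n hn => (mem_up.1 (mem_filter.1 (mem_filter.1 hn).1).1).2) (fun x hx y hy => by
          have h1 := (mem_filter.1 hx).2
          have h2 := (mem_filter.1 hy).2
          have := Nat.div_add_mod x h
          have := Nat.div_add_mod y h
          have := Nat.mod_lt x h0
          have := Nat.mod_lt y h0
          beta_reduce at h1 h2
          rw [h1] at *
          rw [h2] at *
          unfold Nat.dist
          omega)
        (by have : 2 * (h - 1) ≤ e := by omega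
            unfold P; nlinarith)
        (by rw [two_mul, pow_add]; exact Nat.mul_le_mul this.le this)).trans (by omega)

theorem gap' {m m' e f : ℕ} (hm : m < m') (h0 : 14 * (k e ^ 4) ^ 5 ≤ 2 * e + 1) (he : 1 ≤ e)
    (h : e < f) (h1 : m ∈ M e) (h2 : m' ∈ M e) (h3 : m ∈ M f) (h4 : m' ∈ M f) :
    (2 * e + 1) ^ 3 ≤ (2 * f + 1) ^ 2 := by
  obtain ⟨a1, x, b1⟩ := mem_M.1 h1
  obtain ⟨a2, z, b2⟩ := mem_M.1 h2
  obtain ⟨-, x', b3⟩ := mem_M.1 h3
  obtain ⟨-, z', b4⟩ := mem_M.1 h4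
  unfold P at b1 b2 b3 b4
  generalize k e ^ 4 = L at *
  zify at *
  have := gap (L := L) (y := 2 * e + 1) (y' := 2 * f + 1) (x := 2 * x + 1) (x' := 2 * x' + 1)
    (z := 2 * z + 1) (z' := 2 * z' + 1) a1.1 hm a2.2 (by omega) (by omega) (by omega) (by omega)
    (by omega) (by omega) (by linear_combination 4 * b1) (by linear_combination 4 * b3)
    (by linear_combination 4 * b2) (by linear_combination 4 * b4)
  refine le_of_mul_le_mul_left ?_ (show (0 : ℤ) < 2 * e + 1 by omega)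
  calc _ = (2 * e + 1 : ℤ) ^ 4 := by ring
    _ ≤ _ := this.trans (mul_le_mul_of_nonneg_right h0 (by positivity))

theorem pair_card {m m' e0 : ℕ} (hm : m ≠ m') (h0 : ∀ e, e0 ≤ e → 14 * (k e ^ 4) ^ 5 ≤ 2 * e + 1)
    (he : 1 ≤ e0) (X : ℕ) :
    ((Ico e0 X).filter fun e => m ∈ M e ∧ m' ∈ M e).card ≤ 2 * (Nat.log 2 (k X) + 1) := by
  wlog h : m < m' generalizing m m'
  · simpa only [and_comm] using this hm.symm (by omega)
  rw [← card_range (Nat.log 2 (k X) + 1)]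
  refine card_le_mul_card_image_of_maps_to (f := fun e => Nat.log 2 (Nat.log 2 (2 * e + 1)))
    (fun e he => mem_range.2 (Nat.lt_succ_of_le (Nat.log_mono_right ?_))) 2 fun i _ => ?_
  · have := (mem_Ico.1 (mem_filter.1 he).1).2
    have := lt_k X
    exact Nat.le_of_lt_succ (Nat.log_lt_of_lt_pow (by omega) (by rw [pow_succ]; omega))
  suffices ∀ S : Finset ℕ, (∀ e ∈ S, (e0 ≤ e ∧ m ∈ M e ∧ m' ∈ M e) ∧
      Nat.log 2 (Nat.log 2 (2 * e + 1)) = i) → S.card ≤ 2 from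
    this _ fun e he => ⟨⟨(mem_Ico.1 (mem_filter.1 (mem_filter.1 he).1).1).1,
      (mem_filter.1 (mem_filter.1 he).1).2⟩, (mem_filter.1 he).2⟩
  intro S hS'
  have key : ∀ x ∈ S, ∀ y ∈ S, ∀ z ∈ S, ¬ (x < y ∧ y < z) := fun x hx y hy z hz ⟨h1, h2⟩ => by
    obtain ⟨⟨a1, a2, a3⟩, a4⟩ := hS' x hx
    obtain ⟨⟨b1, b2, b3⟩, -⟩ := hS' y hy
    obtain ⟨⟨-, c2, c3⟩, c4⟩ := hS' z hz
    have g1 := gap' h (h0 x a1) (by omega) h1 a2 a3 b2 b3
    have g2 := gap' h (h0 y b1) (by omega) h2 b2 b3 c2 c3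
    have g3 : 2 ^ 2 ^ i ≤ 2 * x + 1 := Nat.pow_le_of_le_log (by omega) (Nat.pow_le_of_le_log
      (Nat.log_pos one_lt_two (by omega)).ne' a4.ge)
    have g4 : 2 * z + 1 < 2 ^ 2 ^ (i + 1) := Nat.lt_pow_of_log_lt one_lt_two
      (Nat.lt_pow_of_log_lt one_lt_two (by omega))
    rw [pow_succ, pow_mul] at g4
    have g5 := g4.trans_le (Nat.pow_le_pow_left g3 2)
    have g6 : 1 ≤ 2 * x + 1 := by omega
    generalize 2 * x + 1 = u, 2 * y + 1 = v, 2 * z + 1 = w at *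
    refine lt_irrefl (u ^ 8) ?_
    calc u ^ 8 ≤ (u ^ 3) ^ 3 := by rw [← pow_mul]; exact Nat.pow_le_pow_right g6 (by omega)
      _ ≤ (v ^ 2) ^ 3 := Nat.pow_le_pow_left g1 3
      _ = (v ^ 3) ^ 2 := by ring
      _ ≤ (w ^ 2) ^ 2 := Nat.pow_le_pow_left g2 2
      _ = w ^ 4 := by ring
      _ < (u ^ 2) ^ 4 := Nat.pow_lt_pow_left g5 (by omega)
      _ = _ := by ring
  by_contra hc
  obtain ⟨x, hx, y, hy, z, hz, h1, h2, h3⟩ := two_lt_card.1 (not_le.1 hc)
  have := key x hx y hy z hz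
  have := key x hx z hz y hy
  have := key y hy x hx z hz
  have := key y hy z hz x hx
  have := key z hz x hx y hy
  have := key z hz y hy x hx
  omega

theorem sum_a (X : ℕ) : ∑ m ∈ Icc 2 (k X ^ 4), a m ≤ (k X : ℝ) ^ (3 / 8 : ℝ) * Z := by
  refine le_trans ?_ (mul_le_mul_of_nonneg_left (le_Z (Icc 2 (k X ^ 4))) (by positivity))
  rw [mul_sum]
  refine sum_le_sum fun m hm => ?_
  obtain ⟨h1, h2⟩ := mem_Icc.1 hm
  have : (m : ℝ) ≤ (k X : ℝ) ^ 4 := by exact_mod_cast h2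
  calc a m = (m : ℝ) ^ (3 / 32 : ℝ) * (m : ℝ) ^ (-(33 / 32) : ℝ) := by
        rw [a, ← rpow_add (by positivity)]; norm_num
    _ ≤ ((k X : ℝ) ^ 4) ^ (3 / 32 : ℝ) * (m : ℝ) ^ (-(33 / 32) : ℝ) := by gcongr
    _ = _ := by rw [← rpow_natCast, ← rpow_mul (by positivity)]; norm_num

noncomputable def Q (e : ℕ) : ℝ := ∑ z ∈ (M e).offDiag, a z.1 * a z.2

theorem Q_nonneg (e : ℕ) : 0 ≤ Q e := sum_nonneg fun _ _ => mul_nonneg (a_nonneg _) (a_nonneg _)

theorem sum_Q {e0 : ℕ} (h0 : ∀ e, e0 ≤ e → 14 * (k e ^ 4) ^ 5 ≤ 2 * e + 1) (he : 1 ≤ e0) (X : ℕ) :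
    ∑ e ∈ Ico e0 X, Q e ≤ 26 * Z ^ 2 * (k X : ℝ) ^ (7 / 8 : ℝ) := by
  have pk : (1 : ℝ) ≤ k X := by exact_mod_cast Nat.succ_pos _
  have h1 : ((2 * (Nat.log 2 (k X) + 1) : ℕ) : ℝ) ≤ 26 * (k X : ℝ) ^ (1 / 8 : ℝ) := by
    have a1 : (2 : ℝ) ^ Nat.log 2 (k X) ≤ k X := by
      exact_mod_cast Nat.pow_log_le_self 2 (Nat.succ_ne_zero _)
    have a2 := log_le_log (by positivity) a1
    have a3 := log_le_rpow_div (x := k X) (ε := 1 / 8) (by positivity) (by norm_num)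
    have a4 := one_le_rpow pk (show (0 : ℝ) ≤ 1 / 8 by norm_num)
    have a5 := log_two_gt_d9
    rw [log_pow] at a2
    push_cast
    nlinarith [Nat.cast_nonneg (α := ℝ) (Nat.log 2 (k X))]
  unfold Q
  rw [sum_comm' (t' := (Icc 2 (k X ^ 4)).offDiag)
    (s' := fun z => if z ∈ (Icc 2 (k X ^ 4)).offDiag then
      (Ico e0 X).filter fun e => z.1 ∈ M e ∧ z.2 ∈ M e else ∅)]
  · calc _ ≤ ∑ z ∈ (Icc 2 (k X ^ 4)).offDiag, 26 * (k X : ℝ) ^ (1 / 8 : ℝ) * (a z.1 * a z.2) := by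
          refine sum_le_sum fun z hz => ?_
          rw [if_pos hz, sum_const, nsmul_eq_mul]
          exact mul_le_mul_of_nonneg_right (le_trans
            (by exact_mod_cast pair_card (mem_offDiag.1 hz).2.2 h0 he X) h1)
            (mul_nonneg (a_nonneg _) (a_nonneg _))
      _ ≤ 26 * (k X : ℝ) ^ (1 / 8 : ℝ) * (∑ m ∈ Icc 2 (k X ^ 4), a m) ^ 2 := by
          rw [← mul_sum, sq, sum_mul_sum, ← sum_product']
          exact mul_le_mul_of_nonneg_left (sum_le_sum_of_subset_of_nonneg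
            (fun z hz => mem_product.2 ⟨(mem_offDiag.1 hz).1, (mem_offDiag.1 hz).2.1⟩)
            fun _ _ _ => mul_nonneg (a_nonneg _) (a_nonneg _)) (by positivity)
      _ ≤ 26 * (k X : ℝ) ^ (1 / 8 : ℝ) * ((k X : ℝ) ^ (3 / 8 : ℝ) * Z) ^ 2 :=
          mul_le_mul_of_nonneg_left (pow_le_pow_left₀ (sum_nonneg fun _ _ => a_nonneg _)
            (sum_a X) 2) (by positivity)
      _ = _ := by
          rw [show (7 / 8 : ℝ) = 1 / 8 + (3 / 8 + 3 / 8) by norm_num, rpow_add (by positivity),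
            rpow_add (by positivity)]
          ring
  · intro e z
    refine ⟨fun ⟨h2, h3⟩ => ?_, fun ⟨h2, h3⟩ => ?_⟩
    · obtain ⟨h4, h5, h6⟩ := mem_offDiag.1 h3
      have := Nat.pow_le_pow_left (k_mono (mem_Ico.1 h2).2.le) 4
      have h7 : z ∈ (Icc 2 (k X ^ 4)).offDiag := mem_offDiag.2
        ⟨mem_Icc.2 ⟨(mem_M.1 h4).1.1, (mem_M.1 h4).1.2.trans this⟩,
          mem_Icc.2 ⟨(mem_M.1 h5).1.1, (mem_M.1 h5).1.2.trans this⟩, h6⟩
      exact ⟨by rw [if_pos h7]; exact mem_filter.2 ⟨h2, h4, h5⟩, h7⟩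
    · rw [if_pos h3, mem_filter] at h2
      exact ⟨h2.1, mem_offDiag.2 ⟨h2.2.1, h2.2.2, (mem_offDiag.1 h3).2.2⟩⟩

theorem sig_le (e : ℕ) : ∑ m ∈ M e, a m + 1 / 10 ≤ 9 / 10 * (1 + 2 * Q e) := by
  have h1 : ∀ m ∈ M e, a m * a m ≤ 3 / 5 * a m := fun m hm => by
    refine mul_le_mul_of_nonneg_right ?_ (a_nonneg m)
    have : (2 : ℝ) ≤ m := by exact_mod_cast (mem_M.1 hm).1.1
    refine (rpow_le_rpow_of_nonpos two_pos this (by norm_num)).trans ?_
    refine (pow_le_pow_iff_left₀ (by positivity) (by norm_num) (show 16 ≠ 0 by norm_num)).1 ?_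
    rw [← rpow_natCast, ← rpow_mul two_pos.le]
    norm_num
  have h2 := sum_le_sum h1
  have h3 : (∑ m ∈ M e, a m) ^ 2 = ∑ m ∈ M e, a m * a m + Q e := by
    rw [sq, sum_mul_sum, ← sum_product', ← diag_union_offDiag, sum_union (disjoint_diag_offDiag _),
      sum_diag, Q]
  rw [← mul_sum] at h2
  nlinarith [Q_nonneg e, sq_nonneg (∑ m ∈ M e, a m - 1)]

theorem exists_G : ∃ (G : ℕ → ℝ) (C : ℝ), (∀ e, 0 ≤ G e) ∧
    (∀ e, 1 ≤ e → ∀ N, ∑ n ∈ up e N, a (P n / P e) ≤ 9 / 10 * exp (G e)) ∧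
    ∀ X, 1 ≤ X → ∑ e ∈ range X, G e ≤ C + log X / 16 := by
  have tk : Filter.Tendsto k Filter.atTop Filter.atTop :=
    Filter.tendsto_atTop.2 fun b => Filter.eventually_atTop.2 ⟨2 ^ b, fun e he =>
      (Nat.le_log_of_pow_le one_lt_two he).trans (Nat.le_succ _)⟩
  have t1 := ((tendsto_rpow_neg_atTop (y := 1 / 2) (by norm_num)).comp
    (tendsto_natCast_atTop_atTop.comp tk)).const_mul (27 * Z)
  have t2 := (tendsto_pow_const_div_const_pow_of_one_lt 20 (one_lt_two (α := ℝ))).comp tk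
  obtain ⟨e0, h0⟩ := Filter.eventually_atTop.1 (((t1.eventually_le_const (show _ < (1 / 10 : ℝ) by
    norm_num)).and (t2.eventually_le_const (show _ < (1 / 14 : ℝ) by norm_num))).and
    (Filter.eventually_ge_atTop 1))
  have he := (h0 e0 le_rfl).2
  have h1 : ∀ e, e0 ≤ e → 14 * (k e ^ 4) ^ 5 ≤ 2 * e + 1 := fun e h => by
    have a1 := (h0 e h).1.2
    simp only [Function.comp, div_le_div_iff₀ (show (0 : ℝ) < 2 ^ k e by positivity)
      (show (0 : ℝ) < 14 by norm_num)] at a1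
    have a2 : k e ^ 20 * 14 ≤ 1 * 2 ^ k e := by exact_mod_cast a1
    have a3 := Nat.pow_log_le_self 2 (show e ≠ 0 by omega)
    rw [← pow_mul, show 4 * 5 = 20 from rfl]
    rw [show 2 ^ k e = 2 ^ Nat.log 2 e * 2 from rfl] at a2
    omega
  obtain ⟨g, hg⟩ : ∃ g : ℕ → ℝ, g = fun e =>
    10 / 9 * (∑ m ∈ M e, a m + 27 * Z * (k e : ℝ) ^ (-(1 / 2) : ℝ)) := ⟨_, rfl⟩
  have g0 : ∀ e, 0 ≤ g e := fun e => by
    have := Z_nonneg
    have := sum_nonneg fun m (_ : m ∈ M e) => a_nonneg m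
    rw [hg]; positivity
  obtain ⟨c, hc⟩ : ∃ c, c = 52 * Z ^ 2 := ⟨_, rfl⟩
  have c0 : 0 ≤ c := by rw [hc]; positivity
  refine ⟨fun e => if e < e0 then g e else 2 * Q e,
    ∑ e ∈ range e0, g e + c * ((32 * c) ^ (8 : ℝ)) ^ (7 / 8 : ℝ) + 1, fun e => ?_, fun e h N => ?_,
    fun X hX => ?_⟩
  · have := Q_nonneg e
    beta_reduce
    split_ifs
    exacts [g0 e, by positivity]
  · refine (up_le h N).trans ?_
    beta_reduce
    split_ifs with h2
    · have := add_one_le_exp (g e)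
      rw [hg] at this ⊢
      beta_reduce at this ⊢
      linarith
    · have := add_one_le_exp (2 * Q e)
      have := sig_le e
      have := (h0 e (not_lt.1 h2)).1.1
      simp only [Function.comp] at this
      linarith
  · have a1 : ∑ e ∈ range X, (if e < e0 then g e else 2 * Q e) ≤
        ∑ e ∈ range e0, g e + 2 * ∑ e ∈ Ico e0 X, Q e := by
      rw [sum_ite, ← mul_sum]
      refine add_le_add (sum_le_sum_of_subset_of_nonneg (fun e h => ?_) fun _ _ _ => g0 _)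
        (le_of_eq (congrArg _ (sum_congr (by ext; simp [and_comm]) fun _ _ => rfl)))
      exact mem_range.2 (mem_filter.1 h).2
    have a2 := sum_Q h1 he X
    have a3 : (k X : ℝ) / 32 ≤ 1 + log X / 16 := by
      have b1 : (2 : ℝ) ^ Nat.log 2 X ≤ X := by exact_mod_cast Nat.pow_log_le_self 2 (by omega)
      have b2 := log_le_log (by positivity) b1
      have b3 := log_two_gt_d9
      rw [log_pow] at b2
      unfold k
      push_cast
      nlinarith [Nat.cast_nonneg (α := ℝ) (Nat.log 2 X)]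
    have a4 : c * (k X : ℝ) ^ (7 / 8 : ℝ) ≤ c * ((32 * c) ^ (8 : ℝ)) ^ (7 / 8 : ℝ) + k X / 32 := by
      have y0 : (0 : ℝ) ≤ k X := by positivity
      generalize (k X : ℝ) = y at *
      rcases le_total y ((32 * c) ^ (8 : ℝ)) with h | h
      · exact le_add_of_le_of_nonneg (by gcongr) (by positivity)
      · have b1 := rpow_le_rpow (by positivity) h (show (0 : ℝ) ≤ 1 / 8 by norm_num)
        rw [← rpow_mul (by positivity), show (8 : ℝ) * (1 / 8) = 1 by norm_num, rpow_one] at b1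
        have b2 : y ^ (1 / 8 : ℝ) * y ^ (7 / 8 : ℝ) = y := by
          rw [← rpow_add' y0 (by norm_num)]; norm_num
        have b3 := mul_le_mul_of_nonneg_right b1 (rpow_nonneg y0 (7 / 8))
        exact le_add_of_nonneg_of_le (by positivity) (by linarith)
    rw [hc] at a4 ⊢
    linarith

end Pool.Agent.H.MP_175962_nt
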